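import Mathlib
import Pool.Agent.RC.Final

/-!
# The random conductance operator is localised above the percolation energy

`H_w f(x) = ∑_{y ~ x} w(x,y) (f(x) - f(y))` on `ℓ²(ℤ^d)`, with i.i.d. conductances in `[a, b]`,
`a > 0`. Let `p < p_c(ℤ^d)` (`p_c(ℤ²) = 1/2`) and let the law of `log w` have a density bounded by
`K`. If `P(w > q) ≤ p`, then almost surely `H_w` is localised on `[C q, ∞)`: the spectrum there is
pure point and all eigenfunctions decay exponentially. The constant `C` depends only on `d`, `p` and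
`K`, not on the ellipticity constants `a` and `b`.
-/

set_option autoImplicit false

open MeasureTheory Set
open scoped NNReal InnerProductSpace

namespace Pool.Agent.Results.MP_938f0c_mp.PercolationEnergy

/-- The edges of `ℤ^d`: the edge `(x, j)` joins `x` and `x + e_j`. -/
abbrev Edge (d : ℕ) : Type := (Fin d → ℤ) × Fin d

/-- `ℓ²(ℤ^d)` -/
abbrev L2 (d : ℕ) : Type := lp (fun _ : Fin d → ℤ => ℂ) 2

/-- The conductance operator: `(H_w f)(x) = ∑_{y ~ x} w(x,y) (f(x) - f(y))`. -/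
noncomputable def H {d : ℕ} (w : Edge d → ℝ) (f : (Fin d → ℤ) → ℂ) (x : Fin d → ℤ) : ℂ :=
  ∑ j : Fin d, ((w (x, j) : ℂ) * (f x - f (x + Pi.single j 1)) +
    (w (x - Pi.single j 1, j) : ℂ) * (f x - f (x - Pi.single j 1)))

/-- `f ∈ ℓ²(ℤ^d)` is zero or an eigenfunction of `H_w` with eigenvalue `E`. -/
def Eig {d : ℕ} (w : Edge d → ℝ) (E : ℝ) (f : L2 d) : Prop :=
  ∀ x : Fin d → ℤ, H w f x = (E : ℂ) * f x

/-- `H_w` is localised on the energies `[c, ∞)`:
every eigenfunction with eigenvalue `E ≥ c` decays exponentially, and the spectrum of `H_w` in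
`[c, ∞)` is pure point. The second part is written with the quadratic form
`⟨g, H_w g⟩ = ∑_{x, j} w(x, x + e_j) |g(x + e_j) - g(x)|²`: if `g ∈ ℓ²(ℤ^d)` is orthogonal to all
eigenfunctions with eigenvalue `E ≥ c` then `⟨g, H_w g⟩ ≤ c ‖g‖²` (equivalently: the spectral
measure of `g` does not charge `[c, ∞)`). -/
def LocalisedAbove {d : ℕ} (w : Edge d → ℝ) (c : ℝ) : Prop :=
  (∀ E : ℝ, c ≤ E → ∀ f : L2 d, Eig w E f →
    ∃ C m : ℝ, 0 < m ∧ ∀ x : Fin d → ℤ, ‖f x‖ ≤ C * Real.exp (-(m * ‖x‖))) ∧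
  ∀ g : L2 d, (∀ E : ℝ, c ≤ E → ∀ f : L2 d, Eig w E f → ⟪f, g⟫_ℂ = 0) →
    ∑' e : Edge d, ENNReal.ofReal (w e * ‖g (e.1 + Pi.single e.2 1) - g e.1‖ ^ 2) ≤
      ENNReal.ofReal (c * ‖g‖ ^ 2)

/-- `x` and `y` are connected by a path of edges in `σ`. -/
def Joined {d : ℕ} (σ : Set (Edge d)) : (Fin d → ℤ) → (Fin d → ℤ) → Prop :=
  Relation.ReflTransGen fun u v => ∃ e ∈ σ,
    (e.1 = u ∧ e.1 + Pi.single e.2 1 = v) ∨ (e.1 = v ∧ e.1 + Pi.single e.2 1 = u)

/-- Bond percolation on `ℤ^d` with parameter `p` has an infinite cluster at `0` with positive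
probability (the edge `e` is open if `u e < p`, with independent uniform `u e` in `[0, 1]`). -/
def Percolates (d : ℕ) (p : ℝ) : Prop :=
  0 < (Measure.infinitePi fun _ : Edge d => (volume.restrict (Icc 0 1) : Measure ℝ))
    {u | {y | Joined {e | u e < p} 0 y}.Infinite}

/-- The critical probability of bond percolation on `ℤ^d`. -/
noncomputable def pc (d : ℕ) : ℝ := sInf {p | Percolates d p}

theorem result (d : ℕ) (hd : 0 < d) (p : ℝ) (hp0 : 0 < p) (hp : p < pc d) (K : ℝ≥0) :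
    ∃ C : ℝ, 0 < C ∧ ∀ (μ : Measure ℝ) [IsProbabilityMeasure μ] (a b q : ℝ), 0 < a →
      μ (Icc a b) = 1 → μ.map Real.log ≤ K • (volume : Measure ℝ) →
      μ (Ioi q) ≤ ENNReal.ofReal p →
      ∀ᵐ w ∂(Measure.infinitePi fun _ : Edge d => μ), LocalisedAbove w (C * q) :=
  RC.main d hd hp0 hp K

end Pool.Agent.Results.MP_938f0c_mp.PercolationEnergy
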